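import Mathlib

namespace Pool.Agent.Results.MP_d302e1_nt.DoublingFails

/-- Formulas built from copies of a single constant with binary `+` and `×` and arbitrary
parenthesisation. Read with the value `l` for the constant, such a formula is an `l`-expression,
see `Formula.value`. -/
inductive Formula : Type
  | const : Formula
  | add : Formula → Formula → Formula
  | mul : Formula → Formula → Formula

namespace Formula

/-- The value of the formula when every copy of the constant is read as `l`. -/
def value (l : ℕ) : Formula → ℕ
  | const => l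
  | add a b => value l a + value l b
  | mul a b => value l a * value l b

/-- The size of the formula: the number of copies of the constant. -/
def size : Formula → ℕ
  | const => 1
  | add a b => size a + size b
  | mul a b => size a + size b

/-- The number of summands that are the literal constant when the formula is read as a sum with
`+` associative (a product has no such summand; the bare constant counts as one). -/
def literals : Formula → ℕ
  | const => 1
  | add a b => literals a + literals b
  | mul _ _ => 0

/-- `Reduced R`: no sum occurring in `R` (with `+` read as associative) has four or more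
summands that are the literal constant. -/
def Reduced : Formula → Prop
  | const => True
  | add a b => literals a + literals b < 4 ∧ Reduced a ∧ Reduced b
  | mul a b => Reduced a ∧ Reduced b

end Formula

open Formula

/-- The `l`-complexity `‖n‖_l`: the least size of an `l`-expression with value `n`. -/
noncomputable def complexity (l n : ℕ) : ℕ :=
  sInf {s : ℕ | ∃ R : Formula, R.value l = n ∧ R.size = s}

/-- `R` is a most efficient representation of `n`: a `1`-expression with value `n` and size
`‖n‖_1`. -/
def MostEfficient (n : ℕ) (R : Formula) : Prop :=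
  R.value 1 = n ∧ R.size = complexity 1 n

/-! ### Tables for small numbers -/

/-- The numbers `‖v‖_1` for `1 ≤ v ≤ 47`. -/
def ctab (v : ℕ) : ℕ :=
  [0, 1, 2, 3, 4, 5, 5, 6, 6, 6, 7, 8, 7, 8, 8, 8, 8, 9, 8, 9, 9, 9, 10, 11, 9, 10, 10, 9, 10, 11,
    10, 11, 10, 11, 11, 11, 10, 11, 11, 11, 11, 12, 11, 12, 12, 11, 12, 13].getD v 0

/-- For `1 ≤ v ≤ 47`, the pairs (value after doubling every one, number of literal summands) of
the reduced most efficient representations of `v`. -/
def ttab (v : ℕ) : List (ℕ × ℕ) :=
  [[], [(2, 1)], [(4, 2)], [(6, 3)], [(16, 0)], [(18, 1)], [(24, 0)], [(26, 1)], [(64, 0)],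
    [(36, 0)], [(38, 1), (72, 0)], [(40, 2), (74, 1)], [(96, 0)], [(98, 1)], [(104, 0)],
    [(108, 0)], [(256, 0)], [(258, 1)], [(144, 0)], [(146, 1)], [(152, 0), (288, 0)], [(156, 0)],
    [(158, 1), (160, 0), (296, 0)], [(160, 2), (162, 1), (298, 1)], [(384, 0)],
    [(324, 0), (386, 1)], [(392, 0)], [(216, 0)], [(218, 1), (416, 0)], [(220, 2), (418, 1)],
    [(228, 0), (432, 0)], [(230, 1), (434, 1)], [(1024, 0)], [(240, 0), (444, 0), (1026, 1)],
    [(1032, 0)], [(468, 0)], [(576, 0)], [(578, 1)], [(584, 0)], [(588, 0)],
    [(608, 0), (1152, 0)], [(610, 1), (1154, 1)], [(624, 0)], [(626, 1)],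
    [(632, 0), (640, 0), (1184, 0)], [(648, 0)], [(650, 1)], [(652, 2)]].getD v []

theorem ctab_add : ∀ x < 48, ∀ y < 48, 1 ≤ x → 1 ≤ y → x + y < 48 →
    ctab (x + y) ≤ ctab x + ctab y := by
  decide

theorem ctab_mul : ∀ x < 48, ∀ y < 48, 1 ≤ x → 1 ≤ y → x * y < 48 →
    ctab (x * y) ≤ ctab x + ctab y := by
  decide

set_option synthInstance.maxSize 2000 in
theorem ttab_add : ∀ x < 48, ∀ y < 48, 1 ≤ x → 1 ≤ y → x + y < 48 →
    ctab (x + y) = ctab x + ctab y →
    ∀ p ∈ ttab x, ∀ q ∈ ttab y, p.2 + q.2 < 4 → (p.1 + q.1, p.2 + q.2) ∈ ttab (x + y) := by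
  decide

set_option synthInstance.maxSize 2000 in
theorem ttab_mul : ∀ x < 48, ∀ y < 48, 1 ≤ x → 1 ≤ y → x * y < 48 →
    ctab (x * y) = ctab x + ctab y →
    ∀ p ∈ ttab x, ∀ q ∈ ttab y, (p.1 * q.1, 0) ∈ ttab (x * y) := by
  decide

theorem one_le_value (R : Formula) : 1 ≤ R.value 1 := by
  induction R with
  | const => exact le_refl 1
  | add a b iha ihb => simp only [value]; omega
  | mul a b iha ihb => simp only [value]; exact Nat.mul_le_mul iha ihb

theorem ctab_le_size (R : Formula) (h : R.value 1 < 48) : ctab (R.value 1) ≤ R.size := by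
  induction R with
  | const => decide
  | add a b iha ihb =>
    simp only [value] at h ⊢
    have ha := one_le_value a
    have hb := one_le_value b
    have h1 := iha (by omega)
    have h2 := ihb (by omega)
    have h3 := ctab_add _ (by omega : a.value 1 < 48) _ (by omega : b.value 1 < 48) ha hb h
    simp only [size]
    omega
  | mul a b iha ihb =>
    simp only [value] at h ⊢
    have ha := one_le_value a
    have hb := one_le_value b
    have h4 : a.value 1 ≤ a.value 1 * b.value 1 := Nat.le_mul_of_pos_right _ hb
    have h5 : b.value 1 ≤ a.value 1 * b.value 1 := Nat.le_mul_of_pos_left _ ha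
    have h1 := iha (by omega)
    have h2 := ihb (by omega)
    have h3 := ctab_mul _ (by omega : a.value 1 < 48) _ (by omega : b.value 1 < 48) ha hb h
    simp only [size]
    omega

theorem mem_ttab (R : Formula) (h : R.value 1 < 48) (hs : R.size = ctab (R.value 1))
    (hR : R.Reduced) : (R.value 2, R.literals) ∈ ttab (R.value 1) := by
  induction R with
  | const => decide
  | add a b iha ihb =>
    simp only [value, size, Formula.Reduced, literals] at h hs hR ⊢
    have ha := one_le_value a
    have hb := one_le_value b
    have h1 := ctab_le_size a (by omega)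
    have h2 := ctab_le_size b (by omega)
    have h3 := ctab_add _ (by omega : a.value 1 < 48) _ (by omega : b.value 1 < 48) ha hb h
    have h6 := iha (by omega) (by omega) hR.2.1
    have h7 := ihb (by omega) (by omega) hR.2.2
    exact ttab_add _ (by omega) _ (by omega) ha hb h (by omega) _ h6 _ h7 hR.1
  | mul a b iha ihb =>
    simp only [value, size, Formula.Reduced, literals] at h hs hR ⊢
    have ha := one_le_value a
    have hb := one_le_value b
    have h4 : a.value 1 ≤ a.value 1 * b.value 1 := Nat.le_mul_of_pos_right _ hb
    have h5 : b.value 1 ≤ a.value 1 * b.value 1 := Nat.le_mul_of_pos_left _ ha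
    have h1 := ctab_le_size a (by omega)
    have h2 := ctab_le_size b (by omega)
    have h3 := ctab_mul _ (by omega : a.value 1 < 48) _ (by omega : b.value 1 < 48) ha hb h
    have h6 := iha (by omega) (by omega) hR.1
    have h7 := ihb (by omega) (by omega) hR.2
    exact ttab_mul _ (by omega) _ (by omega) ha hb h (by omega) _ h6 _ h7

/-- `1 + 1`. -/
def F2 : Formula := add const const
/-- `(1 + 1) + 1`. -/
def F3 : Formula := add F2 const
/-- `(1 + 1) × (1 + 1) + 1`. -/
def F5 : Formula := add (mul F2 F2) const
/-- A representation of `47` by thirteen ones: `5 × (3 × 3) + 2`. -/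
def F47 : Formula := add (mul F5 (mul F3 F3)) F2

/-- `l × l × l × l + l`. -/
def G18 : Formula := add (mul (mul const const) (mul const const)) const
/-- A `2`-expression of size `12` with value `652 = 2 × (18 × 18 + 2)`. -/
def G652 : Formula := mul const (add (mul G18 G18) const)

theorem complexity_47 : complexity 1 47 = 13 := by
  have hmem : (13 : ℕ) ∈ {s : ℕ | ∃ R : Formula, R.value 1 = 47 ∧ R.size = s} :=
    ⟨F47, by decide, by decide⟩
  refine le_antisymm (Nat.sInf_le hmem) ?_
  obtain ⟨R, hR, hs⟩ := Nat.sInf_mem (⟨13, hmem⟩ :
    {s : ℕ | ∃ R : Formula, R.value 1 = 47 ∧ R.size = s}.Nonempty)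
  have h := ctab_le_size R (by omega)
  rw [hR] at h
  unfold complexity
  rw [← hs]
  exact h

theorem complexity_652 : complexity 2 652 ≤ 12 :=
  Nat.sInf_le ⟨G652, by decide, by decide⟩

/-- **The conjectured equality fails, and at `n = 47` it fails for every representation.**
The number `47` has a reduced most efficient representation, and every reduced most efficient
representation `R` of `47` satisfies `‖a(47, R)‖_2 < ‖47‖_1`, where `a(47, R) = R.value 2` is the
value obtained by replacing every `1` of `R` by `2`. -/
theorem result : ∃ n : ℕ, 0 < n ∧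
    (∃ R : Formula, MostEfficient n R ∧ R.Reduced) ∧
    ∀ R : Formula, MostEfficient n R → R.Reduced → complexity 2 (R.value 2) < complexity 1 n := by
  refine ⟨47, by norm_num, ⟨F47, ⟨by decide, ?_⟩, ?_⟩, ?_⟩
  · rw [complexity_47]; decide
  · simp [F47, F5, F3, F2, Formula.Reduced, literals]
  · intro R hR hred
    obtain ⟨h1, h2⟩ := hR
    rw [complexity_47] at h2 ⊢
    have h3 := mem_ttab R (by omega) (by rw [h1, h2]; decide) hred
    rw [h1] at h3
    have h4 : R.value 2 = 652 := by
      have : ttab 47 = [(652, 2)] := by decide
      rw [this] at h3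
      simp only [List.mem_singleton, Prod.mk.injEq] at h3
      exact h3.1
    rw [h4]
    exact lt_of_le_of_lt complexity_652 (by norm_num)

end Pool.Agent.Results.MP_d302e1_nt.DoublingFails
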